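import Pool.Agent.W960.HC.Defs

/-! The unperturbed half turn of the system `x' = y`, `y' = -x³ + x y²`. -/

open Set Topology Filter MeasureTheory

namespace Pool.Agent.W180.HC

open Pool.Agent.W960.HC

lemma phi_anti : StrictAntiOn (fun u : ℝ => Real.exp (-u) * (1 + u)) (Ici 0) := by
  apply strictAntiOn_of_deriv_neg (convex_Ici 0) (by fun_prop)
  intro u hu
  rw [interior_Ici] at hu
  have h : HasDerivAt (fun u : ℝ => Real.exp (-u) * (1 + u))
      (Real.exp (-u) * (-1) * (1 + u) + Real.exp (-u) * 1) u := by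
    have h1 : HasDerivAt (fun u : ℝ => Real.exp (-u)) (Real.exp (-u) * (-1)) u :=
      (hasDerivAt_neg u).exp
    have h2 : HasDerivAt (fun u : ℝ => 1 + u) 1 u := (hasDerivAt_id u).const_add 1
    exact h1.mul h2
  rw [h.deriv]
  have h3 := Real.exp_pos (-u)
  have hu' : 0 < u := hu
  nlinarith [mul_pos h3 hu']

lemma kp_lt {X : ℝ} (hX : 0 < X) : kp X < 1 := by
  have h := phi_anti (show (0:ℝ) ∈ Ici 0 by simp) (show X ^ 2 ∈ Ici (0:ℝ) from sq_nonneg X)
    (by positivity)
  simpa [kp] using h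

lemma et_sq {X : ℝ} (hX : 0 < X) : et X ^ 2 = 1 - kp X := by
  rw [et, Real.sq_sqrt]
  linarith [kp_lt hX]

lemma et_pos {X : ℝ} (hX : 0 < X) : 0 < et X := by
  rw [et, Real.sqrt_pos]
  linarith [kp_lt hX]

lemma level_sq {X : ℝ} {p : ℝ × ℝ} (h : kap p = kp X) :
    p.2 ^ 2 = 1 + p.1 ^ 2 - kp X * Real.exp (p.1 ^ 2) := by
  rw [← h, kap]
  have : Real.exp (-p.1 ^ 2) * Real.exp (p.1 ^ 2) = 1 := by
    rw [← Real.exp_add]; simp
  linear_combination (1 + p.1 ^ 2 - p.2 ^ 2) * this

lemma level_x {X : ℝ} (hX : 0 < X) {p : ℝ × ℝ} (h : kap p = kp X) : |p.1| ≤ X := by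
  by_contra hc
  push Not at hc
  have h1 : X ^ 2 < p.1 ^ 2 := by
    rw [← sq_abs p.1]
    exact pow_lt_pow_left₀ hc hX.le (by norm_num)
  have h2 := phi_anti (show X ^ 2 ∈ Ici (0:ℝ) from sq_nonneg X)
    (show p.1 ^ 2 ∈ Ici (0:ℝ) from sq_nonneg p.1) h1
  simp only at h2
  rw [kap, kp] at h
  have h3 : 0 ≤ Real.exp (-p.1 ^ 2) * p.2 ^ 2 := by positivity
  nlinarith

lemma level_norm {X : ℝ} (hX : 0 < X) {p : ℝ × ℝ} (h : kap p = kp X) : ‖p‖ ≤ 1 + X := by
  have h1 := level_x hX h
  have h2 := level_sq h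
  have h3 : 0 ≤ kp X * Real.exp (p.1 ^ 2) := by
    rw [kp]; positivity
  rw [Prod.norm_def, max_le_iff, Real.norm_eq_abs, Real.norm_eq_abs]
  refine ⟨by linarith, ?_⟩
  apply abs_le_of_sq_le_sq _ (by linarith)
  have h4 : p.1 ^ 2 ≤ X ^ 2 := by
    rw [← sq_abs p.1]
    exact pow_le_pow_left₀ (abs_nonneg _) h1 2
  nlinarith

lemma level_zero {X : ℝ} (hX : 0 < X) {p : ℝ × ℝ} (h : kap p = kp X) (h0 : p.2 = 0) :
    |p.1| = X := by
  have h1 := level_x hX h
  rw [kap, kp, h0] at h
  have h2 : |p.1| ^ 2 = X ^ 2 := by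
    rw [sq_abs]
    apply phi_anti.injOn (show p.1 ^ 2 ∈ Ici (0:ℝ) from sq_nonneg p.1)
      (show X ^ 2 ∈ Ici (0:ℝ) from sq_nonneg X)
    simpa using h
  exact (pow_left_inj₀ (abs_nonneg _) hX.le (by norm_num)).1 h2

/-- limits of a function and of its derivative -/
lemma deriv_lim_zero {f f' : ℝ → ℝ} {l L : ℝ} (h : ∀ t, 0 ≤ t → HasDerivAt f (f' t) t)
    (hf : Tendsto f atTop (𝓝 l)) (hf' : Tendsto f' atTop (𝓝 L)) : L = 0 := by
  have key : ∀ n : ℕ, ∃ ξ : ℝ, (n : ℝ) < ξ ∧ f' ξ = f ((n:ℝ) + 1) - f n := by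
    intro n
    have hn : (0:ℝ) ≤ n := n.cast_nonneg
    obtain ⟨ξ, hξ, h2⟩ := exists_hasDerivAt_eq_slope f f' (show (n:ℝ) < n + 1 by linarith)
      (fun t ht => (h t (hn.trans ht.1)).continuousAt.continuousWithinAt)
      (fun t ht => h t (hn.trans ht.1.le))
    refine ⟨ξ, hξ.1, ?_⟩
    rw [h2]; simp
  choose ξ h1 h2 using key
  have hξ : Tendsto ξ atTop atTop :=
    tendsto_atTop_mono (fun n => (h1 n).le) tendsto_natCast_atTop_atTop
  have a1 : Tendsto (fun n => f' (ξ n)) atTop (𝓝 L) := hf'.comp hξ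
  have a2 : Tendsto (fun n : ℕ => f ((n:ℝ) + 1) - f n) atTop (𝓝 (l - l)) := by
    refine Tendsto.sub ?_ ?_
    · exact hf.comp (tendsto_atTop_add_const_right _ _ tendsto_natCast_atTop_atTop)
    · exact hf.comp tendsto_natCast_atTop_atTop
  simp only [← h2] at a2
  have := tendsto_nhds_unique a1 a2
  linarith

lemma d1 {a c : ℝ} {g : ℝ → ℝ × ℝ} {t : ℝ} (h : HasDerivAt g (fld a c 0 (g t)) t) :
    HasDerivAt (fun t => (g t).1) (g t).2 t := by
  have := (hasFDerivAt_fst (𝕜 := ℝ) (p := g t)).comp_hasDerivAt t h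
  simpa [fld, Function.comp_def] using this

lemma d2 {a c : ℝ} {g : ℝ → ℝ × ℝ} {t : ℝ} (h : HasDerivAt g (fld a c 0 (g t)) t) :
    HasDerivAt (fun t => (g t).2) (-(g t).1 ^ 3 + (g t).1 * (g t).2 ^ 2) t := by
  have := (hasFDerivAt_snd (𝕜 := ℝ) (p := g t)).comp_hasDerivAt t h
  simpa [fld, Function.comp_def] using this

lemma dk {a c : ℝ} {g : ℝ → ℝ × ℝ} {t : ℝ} (h : HasDerivAt g (fld a c 0 (g t)) t) :
    HasDerivAt (fun t => kap (g t)) 0 t := by
  have h1 := d1 h
  have h2 := d2 h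
  have h3 := ((h1.pow 2).neg.exp).mul (((h1.pow 2).const_add 1).sub (h2.pow 2))
  refine h3.congr_deriv ?_
  simp only [Pi.sub_apply, Pi.pow_apply, Pi.neg_apply]
  push_cast
  ring

lemma glue {f g : ℝ → ℝ × ℝ} {T : ℝ} {v : ℝ × ℝ} (hf : HasDerivAt f v T) (hg : HasDerivAt g v T)
    (h : f T = g T) : HasDerivAt (fun t => if t ≤ T then f t else g t) v T := by
  have h1 : HasDerivWithinAt (fun t => if t ≤ T then f t else g t) v (Iic T) T := by
    apply hf.hasDerivWithinAt.congr
    · intro t ht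
      simp [show t ≤ T from ht]
    · simp
  have h2 : HasDerivWithinAt (fun t => if t ≤ T then f t else g t) v (Ici T) T := by
    apply hg.hasDerivWithinAt.congr
    · intro t ht
      by_cases h3 : t ≤ T
      · have : t = T := le_antisymm h3 ht
        subst this
        simp [h]
      · simp [h3]
    · simp [h]
  have := h1.union h2
  rwa [Iic_union_Ici, hasDerivWithinAt_univ] at this

theorem quarter (hF : ∀ a c R : ℝ, ∃ Z W, Flw a c R Z W) (a c : ℝ) {X : ℝ} (hX : 0 < X) :
    ∃ T > 0, ∃ γ : ℝ → ℝ × ℝ,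
    γ 0 = (0, et X) ∧ γ T = (0, -et X) ∧
    (∀ t ∈ Icc 0 T, HasDerivAt γ (fld a c 0 (γ t)) t) ∧
    (∀ t ∈ Icc 0 T, kap (γ t) = kp X) ∧ (∀ t ∈ Icc 0 T, ‖γ t‖ ≤ 1 + X) ∧
    (∀ t ∈ Ioo 0 T, 0 < (γ t).1) ∧ ∫ t in (0:ℝ)..T, G a c (γ t) = 2 * Mel a c X := by
  obtain ⟨Z, W, hZ⟩ := hF a c (2 + X)
  obtain ⟨g, hgc, hg0, hgd⟩ : ∃ g : ℝ → ℝ × ℝ, Continuous g ∧ g 0 = (0, et X) ∧
      ∀ t, ‖g t‖ < 2 + X → HasDerivAt g (fld a c 0 (g t)) t := by
    refine ⟨fun t => Z t (0, et X) 0, ?_, ?_, ?_⟩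
    · exact hZ.smZ.continuous.comp
        (by fun_prop : Continuous fun t : ℝ => (t, ((0:ℝ), et X), (0:ℝ)))
    · exact hZ.zero _ _
    · intro t ht
      exact hZ.der _ _ _ ht (by simp)
  have hk0 : kap (g 0) = kp X := by
    rw [hg0, kap]
    simp [et_sq hX]
  have hconst : ∀ t0, 0 ≤ t0 → (∀ s ∈ Ico 0 t0, ‖g s‖ < 2 + X) → kap (g t0) = kp X := by
    intro t0 ht0 hs
    have h1 : ContinuousOn (fun t => kap (g t)) (Icc 0 t0) := by
      have : Continuous fun t => kap (g t) := by
        unfold kap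
        fun_prop
      exact this.continuousOn
    have := constant_of_has_deriv_right_zero h1
      (fun s hs' => (dk (hgd s (hs s hs'))).hasDerivWithinAt) t0 ⟨ht0, le_rfl⟩
    rw [this, hk0]
  have hb : ∀ t, 0 ≤ t → ‖g t‖ < 2 + X := by
    by_contra hc
    push Not at hc
    obtain ⟨t, ht, h1⟩ := hc
    have hSc : IsClosed {t | 0 ≤ t ∧ 2 + X ≤ ‖g t‖} :=
      (isClosed_le continuous_const continuous_id).inter
        (isClosed_le continuous_const hgc.norm)
    have hSb : BddBelow {t | 0 ≤ t ∧ 2 + X ≤ ‖g t‖} := ⟨0, fun s hs => hs.1⟩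
    have hm := hSc.csInf_mem ⟨t, ht, h1⟩ hSb
    have h2 : kap (g (sInf {t | 0 ≤ t ∧ 2 + X ≤ ‖g t‖})) = kp X := by
      apply hconst _ hm.1
      intro s hs
      by_contra h3
      exact absurd (csInf_le hSb
        (⟨hs.1, not_lt.1 h3⟩ : s ∈ {t | 0 ≤ t ∧ 2 + X ≤ ‖g t‖})) (not_le.2 hs.2)
    have := level_norm hX h2
    linarith [hm.2]
  have hk : ∀ t, 0 ≤ t → kap (g t) = kp X :=
    fun t ht => hconst t ht (fun s hs => hb s hs.1)
  have hd : ∀ t, 0 ≤ t → HasDerivAt g (fld a c 0 (g t)) t := fun t ht => hgd t (hb t ht)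
  have hx' : ∀ t, 0 ≤ t → HasDerivAt (fun t => (g t).1) (g t).2 t := fun t ht => d1 (hd t ht)
  have hy' : ∀ t, 0 ≤ t → HasDerivAt (fun t => (g t).2)
      (-(g t).1 ^ 3 + (g t).1 * (g t).2 ^ 2) t := fun t ht => d2 (hd t ht)
  have hz : ∃ t, 0 ≤ t ∧ (g t).2 ≤ 0 := by
    by_contra hc
    push Not at hc
    have hmono : MonotoneOn (fun t => (g t).1) (Ici 0) := by
      apply monotoneOn_of_deriv_nonneg (convex_Ici 0)
      · exact (continuous_fst.comp hgc).continuousOn
      · intro t ht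
        rw [interior_Ici] at ht
        exact (hx' t (le_of_lt ht)).differentiableAt.differentiableWithinAt
      · intro t ht
        rw [interior_Ici] at ht
        rw [(hx' t (le_of_lt ht)).deriv]
        exact (hc t (le_of_lt ht)).le
    have hm2 : Monotone (fun t : ℝ => (g (max t 0)).1) := by
      intro s t hst
      exact hmono (le_max_right s 0) (le_max_right t 0) (max_le_max_right 0 hst)
    have hbdd : BddAbove (range (fun t : ℝ => (g (max t 0)).1)) := by
      refine ⟨X, ?_⟩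
      rintro _ ⟨t, rfl⟩
      exact (le_abs_self _).trans (level_x hX (hk _ (le_max_right t 0)))
    have hl := tendsto_atTop_ciSup hm2 hbdd
    obtain ⟨l, hl⟩ : ∃ l, Tendsto (fun t : ℝ => (g (max t 0)).1) atTop (𝓝 l) := ⟨_, hl⟩
    have hxl : Tendsto (fun t => (g t).1) atTop (𝓝 l) := by
      refine hl.congr' ?_
      filter_upwards [eventually_ge_atTop 0] with t ht
      rw [max_eq_left ht]
    have hyl : Tendsto (fun t => (g t).2) atTop
        (𝓝 (Real.sqrt (1 + l ^ 2 - kp X * Real.exp (l ^ 2)))) := by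
      have h1 : Tendsto (fun t => Real.sqrt (1 + (g t).1 ^ 2 - kp X * Real.exp ((g t).1 ^ 2)))
          atTop (𝓝 (Real.sqrt (1 + l ^ 2 - kp X * Real.exp (l ^ 2)))) := by
        have h2 : Continuous fun u : ℝ => Real.sqrt (1 + u ^ 2 - kp X * Real.exp (u ^ 2)) := by
          fun_prop
        exact (h2.tendsto l).comp hxl
      refine h1.congr' ?_
      filter_upwards [eventually_ge_atTop 0] with t ht
      rw [← level_sq (hk t ht), Real.sqrt_sq (hc t ht).le]
    have e1 := deriv_lim_zero hx' hxl hyl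
    rw [e1] at hyl
    have h3 : Tendsto (fun t => -(g t).1 ^ 3 + (g t).1 * (g t).2 ^ 2) atTop
        (𝓝 (-l ^ 3 + l * 0 ^ 2)) :=
      ((hxl.pow 3).neg).add (hxl.mul (hyl.pow 2))
    have e2 := deriv_lim_zero hy' hyl h3
    have e3 : l = 0 := by
      have : l ^ 3 = 0 := by linarith
      exact pow_eq_zero_iff (by norm_num) |>.1 this
    rw [e3] at e1
    have e4 := Real.sqrt_eq_zero'.1 e1
    have e5 := kp_lt hX
    simp at e4
    linarith
  -- the first zero of `y`
  have hSc : IsClosed {t | 0 ≤ t ∧ (g t).2 ≤ 0} :=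
    (isClosed_le continuous_const continuous_id).inter
      (isClosed_le (continuous_snd.comp hgc) continuous_const)
  have hSb : BddBelow {t | 0 ≤ t ∧ (g t).2 ≤ 0} := ⟨0, fun s hs => hs.1⟩
  have hm := hSc.csInf_mem hz hSb
  obtain ⟨T, hT⟩ : ∃ T, T = sInf {t | 0 ≤ t ∧ (g t).2 ≤ 0} := ⟨_, rfl⟩
  rw [← hT] at hm
  obtain ⟨hT0, hT1⟩ : 0 ≤ T ∧ (g T).2 ≤ 0 := hm
  have hpos : ∀ s, 0 ≤ s → s < T → 0 < (g s).2 := by
    intro s hs hsT
    by_contra h3
    rw [hT] at hsT
    exact absurd (csInf_le hSb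
      (⟨hs, not_lt.1 h3⟩ : s ∈ {t | 0 ≤ t ∧ (g t).2 ≤ 0})) (not_le.2 hsT)
  have hTpos : 0 < T := by
    rcases hT0.lt_or_eq with h | h
    · exact h
    · rw [← h, hg0] at hT1
      exact absurd hT1 (not_le.2 (et_pos hX))
  have hyT : (g T).2 = 0 := by
    apply le_antisymm hT1
    have h1 : Tendsto (fun t => (g t).2) (𝓝[<] T) (𝓝 (g T).2) :=
      ((continuous_snd.comp hgc).tendsto T).mono_left nhdsWithin_le_nhds
    refine ge_of_tendsto h1 ?_
    filter_upwards [Ioo_mem_nhdsLT hTpos] with s hs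
    exact (hpos s hs.1.le hs.2).le
  have hmono : StrictMonoOn (fun t => (g t).1) (Icc 0 T) := by
    apply strictMonoOn_of_deriv_pos (convex_Icc 0 T)
    · exact (continuous_fst.comp hgc).continuousOn
    · intro t ht
      rw [interior_Icc] at ht
      rw [(hx' t ht.1.le).deriv]
      exact hpos t ht.1.le ht.2
  have hxpos : ∀ t, 0 < t → t ≤ T → 0 < (g t).1 := by
    intro t ht htT
    have := hmono (show (0:ℝ) ∈ Icc 0 T from ⟨le_rfl, hT0⟩) ⟨ht.le, htT⟩ ht
    simpa [hg0] using this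
  have hxT : (g T).1 = X := by
    have := level_zero hX (hk T hT0) hyT
    rwa [abs_of_pos (hxpos T hTpos le_rfl)] at this
  -- the reversed solution
  obtain ⟨r, hr⟩ : ∃ r : ℝ → ℝ × ℝ, r = fun t => ((g (2 * T - t)).1, -(g (2 * T - t)).2) :=
    ⟨_, rfl⟩
  have hrc : Continuous r := by
    rw [hr]
    fun_prop
  have hrd : ∀ t, t ≤ 2 * T → HasDerivAt r (fld a c 0 (r t)) t := by
    intro t ht
    have h1 : HasDerivAt (fun t => 2 * T - t) (-1) t := by
      simpa using (hasDerivAt_id t).const_sub (2 * T)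
    have h2 := HasDerivAt.comp t (hx' (2 * T - t) (by linarith)) h1
    have h3 := (HasDerivAt.comp t (hy' (2 * T - t) (by linarith)) h1).neg
    have h4 := h2.prodMk h3
    rw [hr]
    refine h4.congr_deriv ?_
    simp [fld]
  have hTr : g T = r T := by
    rw [hr]
    have : 2 * T - T = T := by ring
    simp only [this, hyT]
    ext
    · rfl
    · simp [hyT]
  have hγc : Continuous (fun t => if t ≤ T then g t else r t) := by
    refine Continuous.if_le hgc hrc continuous_id continuous_const ?_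
    intro t ht
    rw [ht, hTr]
  have hkr : ∀ t, t ≤ 2 * T → kap (r t) = kp X := by
    intro t ht
    have := hk (2 * T - t) (by linarith)
    rw [hr]
    simpa [kap] using this
  have hkk : ∀ t ∈ Icc 0 (2 * T), kap (if t ≤ T then g t else r t) = kp X := by
    intro t ht
    split_ifs with h
    · exact hk t ht.1
    · exact hkr t ht.2
  refine ⟨2 * T, by linarith, fun t => if t ≤ T then g t else r t, ?_, ?_, ?_, hkk, ?_, ?_, ?_⟩
  · simp [hT0, hg0]
  · have : ¬ (2 * T ≤ T) := by linarith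
    simp [this, hr, hg0]
  · intro t ht
    rcases lt_trichotomy t T with h | h | h
    · have e : (fun t => if t ≤ T then g t else r t) =ᶠ[𝓝 t] g := by
        filter_upwards [Iio_mem_nhds h] with s hs
        simp [show s ≤ T from le_of_lt hs]
      have h1 := (hd t ht.1).congr_of_eventuallyEq e
      simpa [h.le] using h1
    · subst h
      have h1 := glue (hd t hT0) (by rw [hTr]; exact hrd t ht.2) hTr
      simpa using h1
    · have e : (fun t => if t ≤ T then g t else r t) =ᶠ[𝓝 t] r := by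
        filter_upwards [Ioi_mem_nhds h] with s hs
        simp [show ¬ s ≤ T from not_le.2 hs]
      have h1 := (hrd t ht.2).congr_of_eventuallyEq e
      simpa [not_le.2 h] using h1
  · intro t ht
    exact level_norm hX (hkk t ht)
  · intro t ht
    by_cases h : t ≤ T
    · simpa [h] using hxpos t ht.1 h
    · have := hxpos (2 * T - t) (by linarith [ht.2]) (by linarith [not_le.1 h])
      simpa [h, hr] using this
  · have hGc : Continuous (fun t => G a c (if t ≤ T then g t else r t)) := by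
      have : Continuous (fun p : ℝ × ℝ => G a c p) := by
        unfold G
        fun_prop
      exact this.comp hγc
    have hI : ∫ t in (0:ℝ)..T, G a c (g t) = Mel a c X := by
      have hcont : Continuous (fun u : ℝ => Real.exp (-u ^ 2) * Y (kp X) u *
          (a + c * u ^ 2 + Y (kp X) u ^ 2)) := by
        unfold Y
        fun_prop
      have h1 := intervalIntegral.integral_comp_mul_deriv (a := 0) (b := T)
        (f := fun t => (g t).1) (f' := fun t => (g t).2)
        (g := fun u : ℝ => Real.exp (-u ^ 2) * Y (kp X) u *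
          (a + c * u ^ 2 + Y (kp X) u ^ 2))
        (fun t ht => by
          rw [uIcc_of_le hT0] at ht
          exact hx' t ht.1)
        (continuous_snd.comp hgc).continuousOn hcont
      simp only [hg0, hxT] at h1
      rw [Mel, ← h1]
      apply intervalIntegral.integral_congr
      intro t ht
      rw [uIcc_of_le hT0] at ht
      have hy0 : 0 ≤ (g t).2 := by
        rcases ht.2.lt_or_eq with h | h
        · exact (hpos t ht.1 h).le
        · rw [h, hyT]
      have hY : Y (kp X) (g t).1 = (g t).2 := by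
        rw [Y, ← level_sq (hk t ht.1), Real.sqrt_sq hy0]
      simp only [Function.comp, hY, G]
      ring
    rw [← intervalIntegral.integral_add_adjacent_intervals (b := T)
      (hGc.intervalIntegrable _ _) (hGc.intervalIntegrable _ _)]
    have h1 : ∫ t in (0:ℝ)..T, G a c (if t ≤ T then g t else r t) = Mel a c X := by
      rw [← hI]
      apply intervalIntegral.integral_congr
      intro t ht
      rw [uIcc_of_le hT0] at ht
      simp [ht.2]
    have h2 : ∫ t in T..(2 * T), G a c (if t ≤ T then g t else r t) = Mel a c X := by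
      have e1 : ∫ t in T..(2 * T), G a c (if t ≤ T then g t else r t) =
          ∫ t in T..(2 * T), G a c (g (2 * T - t)) := by
        apply intervalIntegral.integral_congr
        intro t ht
        rw [uIcc_of_le (by linarith)] at ht
        have e2 : (if t ≤ T then g t else r t) = r t := by
          split_ifs with h
          · have : t = T := le_antisymm h ht.1
            rw [this, hTr]
          · rfl
        show G a c (if t ≤ T then g t else r t) = G a c (g (2 * T - t))
        rw [e2, hr]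
        simp only [G]
        ring
      rw [e1, intervalIntegral.integral_comp_sub_left (fun t => G a c (g t)) (2 * T)]
      rw [← hI]
      congr 1 <;> ring
    rw [h1, h2]
    ring

end Pool.Agent.W180.HC
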